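import Pool.Agent.Helper82.EN.Basic

set_option autoImplicit false

/-! # ENCODING BY TM: module DEC -/

namespace Pool.Agent.Helper82.EN

open Finset

theorem dec_digit : ∀ (n a b : ℕ), a < 3 ^ n → b < 3 ^ n →
    (∀ t < n, a / 3 ^ t % 3 = b / 3 ^ t % 3) → a = b := by
  intro n
  induction n with
  | zero => intro a b ha hb _; simp at ha hb; omega
  | succ n ih =>
    intro a b ha hb h
    have h0 := h 0 (by omega)
    simp only [pow_zero, Nat.div_one] at h0
    have h1 : a / 3 = b / 3 := by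
      apply ih
      · rw [pow_succ] at ha; omega
      · rw [pow_succ] at hb; omega
      · intro t ht
        have h2 := h (t + 1) (by omega)
        rw [Nat.div_div_eq_div_mul, Nat.div_div_eq_div_mul, ← pow_succ']
        exact h2
    omega

/-- class of a stage with `3 ∣ i` -/
theorem dec_cls (P : Pa) (g : ℕ) : P.cls (3 * g) = P.code g := by
  unfold Pa.cls
  rw [if_pos (by omega)]
  congr 1
  omega

theorem dec_code0 (P : Pa) (m : ℕ) : P.code ((4 * P.D + 3) * m) = 4 := by
  unfold Pa.code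
  rw [if_pos (Nat.mul_mod_right _ _)]

theorem dec_mod (P : Pa) (m g : ℕ) (hg : g ≤ 4 * P.D + 2) :
    ((4 * P.D + 3) * m + g) % (4 * P.D + 3) = g := by
  rw [Nat.mul_add_mod, Nat.mod_eq_of_lt (by omega)]

theorem dec_div (P : Pa) (m g : ℕ) (hg : g ≤ 4 * P.D + 2) :
    ((4 * P.D + 3) * m + g) / (4 * P.D + 3) = m := by
  rw [Nat.mul_add_div (by omega), Nat.div_eq_of_lt (by omega), add_zero]

theorem dec_code1 (P : Pa) (m : ℕ) : P.code ((4 * P.D + 3) * m + 1) = 1 := by
  unfold Pa.code
  rw [dec_mod P m 1 (by omega)]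
  simp

theorem dec_code2 (P : Pa) (m : ℕ) (hD : 1 ≤ P.D) :
    P.code ((4 * P.D + 3) * m + (4 * P.D + 2)) = 2 := by
  unfold Pa.code
  rw [dec_mod P m _ le_rfl, if_neg (by omega), if_neg (by omega), if_pos rfl]

theorem dec_codet (P : Pa) (m t : ℕ) (ht : t < 4 * P.D) :
    P.code ((4 * P.D + 3) * m + (t + 2)) = m / 3 ^ t % 3 + 1 := by
  unfold Pa.code
  rw [dec_mod P m _ (by omega), if_neg (by omega), if_neg (by omega), if_neg (by omega),
    dec_div P m _ (by omega)]
  simp

theorem dec_four (P : Pa) (i : ℕ) (h : P.cls i = 4) : P.nb * (i / P.nb) = i := by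
  unfold Pa.cls at h
  by_cases h3 : i % 3 = 0
  · rw [if_pos h3] at h
    unfold Pa.code at h
    by_cases h4 : i / 3 % (4 * P.D + 3) = 0
    · apply Nat.mul_div_cancel'
      unfold Pa.nb
      obtain ⟨j, hj⟩ := Nat.dvd_of_mod_eq_zero h4
      exact ⟨j, by rw [mul_assoc, ← hj]; omega⟩
    · rw [if_neg h4] at h
      have : ∀ x : ℕ, x % 3 + 1 ≠ 4 := fun x => by omega
      split_ifs at h
      · exact absurd h (by norm_num)
      · exact absurd h (by norm_num)
      · exact absurd h (this _)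
  · rw [if_neg h3] at h
    exact absurd h (by norm_num)

theorem st_DEC : ST_DEC := by
  intro P hD m i hm hi h
  have e1 : ∀ m g : ℕ, P.nb * m + 3 * g = 3 * ((4 * P.D + 3) * m + g) := by
    intro m g
    unfold Pa.nb
    ring
  have e0 : P.cls (P.nb * m) = 4 := by
    have := e1 m 0
    rw [mul_zero, add_zero, add_zero] at this
    rw [this, dec_cls, dec_code0]
  rw [e0] at h
  have h' := dec_four P i h.symm
  obtain ⟨m', hm'⟩ : ∃ m', i / P.nb = m' := ⟨_, rfl⟩
  rw [hm'] at h' hi
  refine ⟨fun hg => ?_, fun h3 => ?_⟩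
  · rw [← h']
    congr 1
    symm
    refine dec_digit (4 * P.D) m m' hm hi fun t ht => ?_
    have h2 := hg (t + 2) (by omega)
    rw [← h', e1, e1, dec_cls, dec_cls, dec_codet P m t ht, dec_codet P m' t ht] at h2
    omega
  · have h4 := e1 m 1
    rw [mul_one] at h4
    rw [h4, dec_cls, dec_code1]
    obtain ⟨k, rfl⟩ : ∃ k, m' = k + 1 := by
      rcases m' with _ | k
      · exfalso
        rw [mul_zero] at h'
        omega
      · exact ⟨k, rfl⟩
    have h5 : i - 3 = 3 * ((4 * P.D + 3) * k + (4 * P.D + 2)) := by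
      have : i = 3 * ((4 * P.D + 3) * k + (4 * P.D + 2)) + 3 := by
        rw [← h']
        unfold Pa.nb
        ring
      omega
    rw [h5, dec_cls, dec_code2 P k hD]
    norm_num

end Pool.Agent.Helper82.EN
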