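import Pool.Agent.Helper82.EN.Basic

set_option autoImplicit false

/-! # ENCODING BY TM: module EB -/

namespace Pool.Agent.Helper82.EN

open Finset

section
variable {Q : Type}

/-- the words printed, from the local data -/
def eb_g (P : Pa) (M : Mc Q) (x : Q × Fin (3 * P.d) × (Fin (3 * P.d) → Tp)) :
    Fin (5 * P.d) → Fin 5 := fun t =>
  M.out (M.run ⟨x.1, (x.2.1 : ℕ), fun z => if h : 0 ≤ z ∧ z < 3 * P.d then
    x.2.2 ⟨z.toNat, by omega⟩ else none⟩ t)

theorem eb_surj (P : Pa) (M : Mc Q) (hd : 1 ≤ P.d) (V : Fin (5 * P.d) → Fin 5)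
    (h : P.Eb1 M V) : ∃ x, eb_g P M x = V := by
  obtain ⟨c, l, h1, h2⟩ := h
  have h0 := h1 0 (by omega)
  simp only [run_zero] at h0
  refine ⟨(c.q, ⟨(c.p - l).toNat, by omega⟩, fun z => c.T (l + (z : ℕ))), ?_⟩
  funext t
  rw [← h2 t]
  unfold eb_g
  have key : ∀ c' : Cf Q, c'.q = c.q → c'.p = c.p + -l →
      (∀ z, l ≤ z → z < l + 3 * P.d → c'.T (z + -l) = c.T z) →
      M.out (M.run c' t) = M.out (M.run c t) := fun c' hq hp hT =>
    loc_out M hq hp hT (5 * P.d) h1 t t.2
  apply key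
  · rfl
  · simp only
    omega
  · intro z hz1 hz2
    simp only
    rw [dif_pos ⟨by omega, by omega⟩]
    congr 1
    omega

open Classical in
theorem eb_card1 [Fintype Q] (P : Pa) (M : Mc Q) (K : ℕ) (hK : Fintype.card Q ≤ K)
    (hd : 1 ≤ P.d) :
    (univ.filter fun V => P.Eb1 M V).card ≤ K * (3 * P.d) * 216 ^ P.d := by
  have h1 : (univ.filter fun V => P.Eb1 M V) ⊆
      (univ : Finset (Q × Fin (3 * P.d) × (Fin (3 * P.d) → Tp))).image (eb_g P M) := by
    intro V hV
    rw [mem_filter] at hV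
    obtain ⟨x, hx⟩ := eb_surj P M hd V hV.2
    exact mem_image.2 ⟨x, mem_univ _, hx⟩
  refine (card_le_card h1).trans (card_image_le.trans ?_)
  rw [card_univ, Fintype.card_prod, Fintype.card_prod, Fintype.card_fun, Fintype.card_fin]
  have h6 : Fintype.card Tp = 6 := rfl
  have h7 : (6 : ℕ) ^ 3 = 216 := by norm_num
  rw [h6, pow_mul, h7, ← mul_assoc]
  exact Nat.mul_le_mul_right _ (Nat.mul_le_mul_right _ hK)

end

open Classical in
theorem st_EB : ST_EB := by
  intro Q _ P M K hK hd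
  have h1 : (univ.filter fun V => P.Eb M V) ⊆
      (univ.filter fun V => P.Eb1 M V) ∪ (univ.filter fun V => P.Eb1 M.mir V) := by
    intro V hV
    rw [mem_filter] at hV
    rw [mem_union, mem_filter, mem_filter]
    rcases hV.2 with h | h
    · exact Or.inl ⟨mem_univ _, h⟩
    · exact Or.inr ⟨mem_univ _, h⟩
  have h2 := eb_card1 P M K hK hd
  have h3 := eb_card1 P M.mir K hK hd
  have h4 := (card_le_card h1).trans (card_union_le _ _)
  omega

end Pool.Agent.Helper82.EN
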